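import Mathlib
import Pool.Agent.H42.Det

/-- A non-metrizable compact abelian group determined by each of its dense `ω`-bounded subgroups:
the restriction map between the dual groups (compact-open topology) is a homeomorphism. -/
theorem Pool.Agent.Results.MP_04f724_gt.No.result :
    ∃ (G : Type) (_ : AddCommGroup G) (_ : TopologicalSpace G),
      IsTopologicalAddGroup G ∧ CompactSpace G ∧ T2Space G ∧
      ¬ TopologicalSpace.MetrizableSpace G ∧
      ∀ H : AddSubgroup G, Dense (H : Set G) →
        (∀ S : Set H, S.Countable → IsCompact (closure S)) →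
        IsHomeomorph fun χ : G →ₜ+ UnitAddCircle =>
          χ.comp (⟨H.subtype, continuous_subtype_val⟩ : H →ₜ+ G) :=
  ⟨Pool.Agent.H42.Dirac.W → ZMod 2, inferInstance, inferInstance, inferInstance, inferInstance,
    inferInstance, Pool.Agent.H42.OmB.nmet, Pool.Agent.H42.Det.main⟩
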